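import Mathlib

set_option autoImplicit false

/-!
# Terminal-comprising ambiguity cannot be avoided over any finite alphabet with two or more letters

For letters `T 0, ..., T n` exhausting the alphabet we give a morphically primitive pattern `pat n T`
such that every substitution which does not erase the variable `0` is terminal-comprisingly
ambiguous.  The pattern is a variant of the one used in the starting file
`Pool.Agent.Helper913.EPatA` for the learnability problem MP_3f2786_lc.
-/

namespace Pool.Agent.Results.MP_00321d_lc.NotAvoidable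

section Defs

variable {S : Type}

/-- A pattern over the terminal alphabet `S`: a word over the variables `ℕ` and the letters of
`S`. -/
abbrev Pattern (S : Type) : Type := List (ℕ ⊕ S)

/-- The image of a pattern under the substitution which maps the variable `x` to the word `σ x`
and fixes every terminal letter. -/
def app (σ : ℕ → List S) (α : Pattern S) : List S :=
  α.flatMap (Sum.elim σ (fun a => [a]))

/-- The image of a pattern under the terminal-preserving morphism of patterns which maps the
variable `x` to `φ x`. -/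
def msub (φ : ℕ → Pattern S) (α : Pattern S) : Pattern S :=
  α.flatMap (Sum.elim φ (fun a => [Sum.inr a]))

/-- `α` is morphically primitive: there are no pattern `β` shorter than `α` and
terminal-preserving morphisms `φ`, `ψ` with `φ (α) = β` and `ψ (β) = α`. -/
def MorphPrimitive (α : Pattern S) : Prop :=
  ¬ ∃ (β : Pattern S) (φ ψ : ℕ → Pattern S),
    β.length < α.length ∧ msub φ α = β ∧ msub ψ β = α

/-- The word `app σ α` in which every letter carries the information where it comes from: `true`
if it comes from an occurrence of a terminal in `α`, `false` if it comes from an occurrence of a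
variable. -/
def origin (σ : ℕ → List S) (α : Pattern S) : List (S × Bool) :=
  α.flatMap (Sum.elim (fun x => (σ x).map (fun a => (a, false))) (fun a => [(a, true)]))

/-- The word `w` is terminal-comprisingly ambiguous with respect to `α`: two substitutions map `α`
to `w`, and some position of `w` comes from a variable under the first one and from a terminal
under the second one. -/
def TCAmbWord (w : List S) (α : Pattern S) : Prop :=
  ∃ τ₁ τ₂ : ℕ → List S, app τ₁ α = w ∧ app τ₂ α = w ∧
    ∃ (i : ℕ) (A : S), (origin τ₁ α)[i]? = some (A, false) ∧ (origin τ₂ α)[i]? = some (A, true)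

/-- The substitution is terminal-comprisingly ambiguous with respect to `α`. -/
def TCAmbiguous (σ : ℕ → List S) (α : Pattern S) : Prop := TCAmbWord (app σ α) α

/-- The substitution is injective: its restriction to the nonempty words of variables is
injective. -/
def InjectiveSub (σ : ℕ → List S) : Prop :=
  ∀ u v : List ℕ, u ≠ [] → v ≠ [] → u.flatMap σ = v.flatMap σ → u = v

end Defs

section Basic

variable {S : Type}

@[simp] theorem app_nil (σ : ℕ → List S) : app σ [] = [] := rfl
@[simp] theorem app_inl (σ : ℕ → List S) (v : ℕ) (α : Pattern S) :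
    app σ (Sum.inl v :: α) = σ v ++ app σ α := by simp [app]
@[simp] theorem app_inr (σ : ℕ → List S) (a : S) (α : Pattern S) :
    app σ (Sum.inr a :: α) = a :: app σ α := by simp [app]
@[simp] theorem app_append (σ : ℕ → List S) (α β : Pattern S) :
    app σ (α ++ β) = app σ α ++ app σ β := by simp [app]
@[simp] theorem msub_nil (φ : ℕ → Pattern S) : msub φ [] = [] := rfl
@[simp] theorem msub_inl (φ : ℕ → Pattern S) (v : ℕ) (α : Pattern S) :
    msub φ (Sum.inl v :: α) = φ v ++ msub φ α := by simp [msub]
@[simp] theorem msub_inr (φ : ℕ → Pattern S) (a : S) (α : Pattern S) :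
    msub φ (Sum.inr a :: α) = Sum.inr a :: msub φ α := by simp [msub]
@[simp] theorem msub_append (φ : ℕ → Pattern S) (α β : Pattern S) :
    msub φ (α ++ β) = msub φ α ++ msub φ β := by simp [msub]

theorem msub_msub (ψ φ : ℕ → Pattern S) (α : Pattern S) :
    msub ψ (msub φ α) = msub (fun v => msub ψ (φ v)) α := by
  induction α with
  | nil => rfl
  | cons s α ih =>
    rcases s with v | a
    · simp [ih]
    · simp [ih]

theorem origin_append (σ : ℕ → List S) (α β : Pattern S) :
    origin σ (α ++ β) = origin σ α ++ origin σ β := by simp [origin]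

theorem origin_length (σ : ℕ → List S) (α : Pattern S) :
    (origin σ α).length = (app σ α).length := by
  induction α with
  | nil => rfl
  | cons s α ih =>
    rcases s with v | a
    · have : origin σ (Sum.inl v :: α) = (σ v).map (fun a => (a, false)) ++ origin σ α := by
        simp [origin]
      rw [this]
      simp [ih]
    · have : origin σ (Sum.inr a :: α) = (a, true) :: origin σ α := by simp [origin]
      rw [this]
      simp [ih]

/-- the basic criterion for terminal-comprising ambiguity -/
theorem amb_of (σ ρ : ℕ → List S) (α pre post pre2 post2 : Pattern S) (v : ℕ) (A : S)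
    (P Q : List S) (h1 : α = pre ++ Sum.inr A :: post) (h2 : α = pre2 ++ Sum.inl v :: post2)
    (hv : σ v = P ++ A :: Q) (he : app ρ pre = app σ pre2 ++ P) (hw : app ρ α = app σ α) :
    TCAmbiguous σ α := by
  refine ⟨σ, ρ, rfl, hw, (app ρ pre).length, A, ?_, ?_⟩
  · rw [h2, origin_append]
    have e : origin σ (Sum.inl v :: post2) =
        (P.map (fun a => (a, false)) ++ (A, false) :: Q.map (fun a => (a, false))) ++
          origin σ post2 := by
      have : origin σ (Sum.inl v :: post2) =
        (σ v).map (fun a => (a, false)) ++ origin σ post2 := by simp [origin]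
      rw [this, hv]
      simp
    rw [e, he]
    rw [List.getElem?_append_right (by rw [origin_length]; simp)]
    rw [origin_length]
    simp
  · rw [h1, origin_append, List.getElem?_append_right (by rw [origin_length])]
    rw [origin_length]
    simp [origin]

end Basic

section Pat

variable {S : Type}

/-- the variable with index `(i, c)` -/
def V (i c : ℕ) : ℕ ⊕ S := Sum.inl (8 * i + c + 1)

def hl (n i : ℕ) : Pattern S := if i = n then [] else [V i 5]
def uu (i : ℕ) : Pattern S := if i = 0 then [] else [V i 4, Sum.inl 0, V i 5, V i 4]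
def stf (n i : ℕ) : Pattern S := uu i ++ Sum.inl 0 :: hl n (i + 1)
def B1 (n i : ℕ) : Pattern S := V i 0 :: V i 2 :: V i 2 :: (stf n i ++ [V i 1])
def B2 (n i : ℕ) : Pattern S := V i 0 :: (stf n i ++ [V i 3, V i 3, V i 1])
def blk (n : ℕ) (T : ℕ → S) (i : ℕ) : Pattern S :=
  Sum.inr (T i) :: (B1 n i ++ Sum.inr (T (i + 1)) :: V i 6 :: Sum.inr (T i) ::
    (B2 n i ++ [Sum.inr (T (i + 1)), V (i + 1) 7]))
def pre (n : ℕ) (T : ℕ → S) (k : ℕ) : Pattern S := V 0 7 :: (List.range k).flatMap (blk n T)
/-- the pattern -/
def pat (n : ℕ) (T : ℕ → S) : Pattern S := pre n T n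

/-- the value of a substitution at `(i, c)` -/
abbrev vl (σ : ℕ → List S) (i c : ℕ) : List S := σ (8 * i + c + 1)

@[simp] theorem app_V (σ : ℕ → List S) (i c : ℕ) (α : Pattern S) :
    app σ (V i c :: α) = vl σ i c ++ app σ α := by simp [V]

theorem app_uu (σ : ℕ → List S) (i : ℕ) :
    app σ (uu i) = if i = 0 then [] else vl σ i 4 ++ (σ 0 ++ (vl σ i 5 ++ vl σ i 4)) := by
  unfold uu
  split_ifs <;> simp

theorem app_hl (σ : ℕ → List S) (n i : ℕ) :
    app σ (hl n i) = if i = n then [] else vl σ i 5 := by
  unfold hl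
  split_ifs <;> simp

theorem app_blk (n : ℕ) (T : ℕ → S) (σ : ℕ → List S) (i : ℕ) :
    app σ (blk n T i) = T i :: (vl σ i 0 ++ (vl σ i 2 ++ (vl σ i 2 ++ (app σ (uu i) ++ (σ 0 ++
      (app σ (hl n (i + 1)) ++ (vl σ i 1 ++ T (i + 1) :: (vl σ i 6 ++
      T i :: (vl σ i 0 ++ (app σ (uu i) ++ (σ 0 ++ (app σ (hl n (i + 1)) ++
      (vl σ i 3 ++ (vl σ i 3 ++ (vl σ i 1 ++ T (i + 1) :: vl σ (i + 1) 7))))))))))))))) := by
  simp [blk, B1, B2, stf]

/-- the values of the second substitution -/
def nv (n : ℕ) (T : ℕ → S) (σ : ℕ → List S) (j : ℕ) (P Q : List S) : ℕ → ℕ → List S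
  | i, 0 => if i = j then Q else vl σ i 0
  | i, 1 => if i + 1 = j then P else vl σ i 1
  | i, 2 => if i = j then [] else vl σ i 2
  | i, 3 => if i + 1 = j then [] else vl σ i 3
  | i, 4 => if i < j then vl σ i 4 else if i = j then [] else vl σ i 4 ++ σ 0
  | i, 5 => if i < j then σ 0 ++ vl σ i 5 else if i = j then [] else vl σ i 5
  | i, 6 => if i + 1 = j then Q ++ (app σ (hl n j) ++ (vl σ i 1 ++ T j :: vl σ i 6)) else
      if i = j then vl σ i 6 ++ T j :: (vl σ i 0 ++ (app σ (uu i) ++ P)) else vl σ i 6
  | i, 7 => if i = j then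
      (if j = 0 then vl σ 0 7 else Q ++ (app σ (hl n j) ++ (vl σ (j - 1) 3 ++ (vl σ (j - 1) 3 ++
        (vl σ (j - 1) 1 ++ T j :: vl σ j 7))))) ++
      (if j = n then [] else T j :: (vl σ j 0 ++ (vl σ j 2 ++ (vl σ j 2 ++ (app σ (uu j) ++ P)))))
      else vl σ i 7
  | i, c => vl σ i c

/-- the second substitution -/
def nsub (n : ℕ) (T : ℕ → S) (σ : ℕ → List S) (j : ℕ) (P Q : List S) (x : ℕ) : List S :=
  if x = 0 then [] else nv n T σ j P Q ((x - 1) / 8) ((x - 1) % 8)

theorem vl_nsub (n : ℕ) (T : ℕ → S) (σ : ℕ → List S) (j : ℕ) (P Q : List S) (i c : ℕ)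
    (hc : c < 8) : vl (nsub n T σ j P Q) i c = nv n T σ j P Q i c := by
  unfold vl nsub
  have h1 : 8 * i + c + 1 ≠ 0 := by omega
  have h2 : (8 * i + c + 1 - 1) / 8 = i := by omega
  have h3 : (8 * i + c + 1 - 1) % 8 = c := by omega
  rw [if_neg h1, h2, h3]

theorem nsub_zero (n : ℕ) (T : ℕ → S) (σ : ℕ → List S) (j : ℕ) (P Q : List S) :
    nsub n T σ j P Q 0 = [] := by simp [nsub]

/-- the overhang after `k` blocks -/
def ov (n : ℕ) (T : ℕ → S) (σ : ℕ → List S) (j : ℕ) (P : List S) (k : ℕ) : List S :=
  if k = j ∧ j < n then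
    T j :: (vl σ j 0 ++ (vl σ j 2 ++ (vl σ j 2 ++ (app σ (uu j) ++ P)))) else []

theorem pre_succ (n : ℕ) (T : ℕ → S) (k : ℕ) : pre n T (k + 1) = pre n T k ++ blk n T k := by
  simp [pre, List.range_succ]

theorem app_pre (n : ℕ) (T : ℕ → S) (σ : ℕ → List S) (j : ℕ) (P Q : List S) (hj : j ≤ n)
    (hU : σ 0 = P ++ T j :: Q) (hn : 1 ≤ n) : ∀ k ≤ n,
    app (nsub n T σ j P Q) (pre n T k) = app σ (pre n T k) ++ ov n T σ j P k := by
  intro k
  induction k with
  | zero =>
    intro _
    simp only [pre, List.range_zero, List.flatMap_nil, app_V, app_nil, List.append_nil]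
    rw [vl_nsub _ _ _ _ _ _ _ _ (by norm_num)]
    rcases Nat.eq_zero_or_pos j with h0 | h0
    · subst h0
      have hn0 : ¬ (0 = n) := by omega
      have hn1 : 0 < n := by omega
      simp [nv, ov, hn0, hn1]
    · have h1 : ¬ (0 = j) := by omega
      simp [nv, ov, h1]
  | succ k ih =>
    intro hk
    have ih' := ih (by omega)
    rw [pre_succ, app_append, app_append, ih', List.append_assoc, List.append_assoc]
    congr 1
    rw [app_blk, app_blk, app_uu, app_hl, nsub_zero]
    simp only [vl_nsub _ _ _ _ _ _ _ _ (show (0 : ℕ) < 8 by norm_num),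
      vl_nsub _ _ _ _ _ _ _ _ (show (1 : ℕ) < 8 by norm_num),
      vl_nsub _ _ _ _ _ _ _ _ (show (2 : ℕ) < 8 by norm_num),
      vl_nsub _ _ _ _ _ _ _ _ (show (3 : ℕ) < 8 by norm_num),
      vl_nsub _ _ _ _ _ _ _ _ (show (4 : ℕ) < 8 by norm_num),
      vl_nsub _ _ _ _ _ _ _ _ (show (5 : ℕ) < 8 by norm_num),
      vl_nsub _ _ _ _ _ _ _ _ (show (6 : ℕ) < 8 by norm_num),
      vl_nsub _ _ _ _ _ _ _ _ (show (7 : ℕ) < 8 by norm_num)]
    rcases lt_trichotomy k j with hij | hij | hij
    · rcases Nat.lt_or_ge (k + 1) j with h1 | h1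
      · -- whole, left type
        have e1 : k ≠ j := by omega
        have e2 : k + 1 ≠ j := by omega
        have e3 : k + 1 ≠ n := by omega
        simp only [nv, ov, if_neg e3, if_pos hij, if_pos h1, app_uu, app_hl,
          e1, e2, false_and, if_false]
        rcases Nat.eq_zero_or_pos k with h0 | h0
        · simp [h0]
        · simp [Nat.ne_of_gt h0]
      · have e2 : k + 1 = j := by omega
        have e1 : k ≠ j := by omega
        have e4 : ¬ (k + 1 < j) := by omega
        have e5 : j ≠ 0 := by omega
        have e6 : j - 1 = k := by omega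
        have e7 : ¬ (k = j ∧ j < n) := by omega
        simp only [nv, ov, if_neg e1, if_pos e2, if_pos hij, if_neg e4, if_neg e5, if_neg e7, e6]
        rw [hU]
        by_cases hjn : j = n
        · have e8 : ¬ (k + 1 = j ∧ j < n) := by omega
          simp only [if_pos hjn, app_uu, app_hl, e2]
          rcases Nat.eq_zero_or_pos k with h0 | h0
          · simp [h0, hjn]
          · simp [Nat.ne_of_gt h0, hjn, hU]
        · have e9 : j < n := by omega
          simp only [if_neg hjn, app_uu, app_hl, e2]
          rcases Nat.eq_zero_or_pos k with h0 | h0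
          · simp [h0, e9]
          · simp [Nat.ne_of_gt h0, hU, e9]
    · subst hij
      have e2 : k + 1 ≠ k := by omega
      have e4 : ¬ (k + 1 < k) := by omega
      have e7 : k < n := by omega
      have e8 : ¬ (k + 1 = k ∧ k < n) := by omega
      simp only [nv, ov, if_neg e2, if_neg e4, lt_irrefl, if_true, if_false, if_neg e8]
      rw [hU]
      rcases Nat.eq_zero_or_pos k with h0 | h0
      · subst h0
        have e9 : 0 < n := by omega
        simp [app_uu, app_hl, e9]
      · have h0' : k ≠ 0 := Nat.ne_of_gt h0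
        simp [h0', app_uu, app_hl, e7, hU]
    · have e1 : k ≠ j := by omega
      have e2 : k + 1 ≠ j := by omega
      have e3 : ¬ (k < j) := by omega
      have e4 : ¬ (k + 1 < j) := by omega
      have h0 : k ≠ 0 := by omega
      simp only [nv, ov, if_neg e3, if_neg e4, app_uu, app_hl,
          e1, e2, false_and, if_false, if_neg h0]
      simp

theorem amb_pat (n : ℕ) (T : ℕ → S) (σ : ℕ → List S) (j : ℕ) (hj : j ≤ n) (hn : 1 ≤ n)
    (hm : T j ∈ σ 0) : TCAmbiguous σ (pat n T) := by
  obtain ⟨P, Q, hU⟩ := List.append_of_mem hm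
  have key := app_pre n T σ j P Q hj hU hn
  have hw : app (nsub n T σ j P Q) (pat n T) = app σ (pat n T) := by
    have := key n le_rfl
    have e : ¬ (n = j ∧ j < n) := by omega
    rw [ov, if_neg e, List.append_nil] at this
    exact this
  rcases Nat.eq_zero_or_pos j with h0 | h0
  · subst h0
    obtain ⟨m, rfl⟩ : ∃ m, n = m + 1 := ⟨n - 1, by omega⟩
    have hr : List.range (m + 1) = 0 :: (List.range m).map Nat.succ := by
      rw [List.range_succ_eq_map]
    refine amb_of σ (nsub (m + 1) T σ 0 P Q) (pat (m + 1) T) [V 0 7] ?_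
      (V 0 7 :: Sum.inr (T 0) :: V 0 0 :: V 0 2 :: V 0 2 :: uu 0) ?_ 0 (T 0) P Q ?_ ?_ hU ?_ hw
    rotate_left 2
    · simp only [pat, pre, hr, List.flatMap_cons, blk]
      rfl
    · simp only [pat, pre, hr, List.flatMap_cons, blk, B1, stf, List.cons_append,
        List.append_assoc]
      rfl
    · have := key 0 (by omega)
      simp only [pre, List.range_zero, List.flatMap_nil] at this
      rw [this]
      have e : (0 = 0 ∧ 0 < m + 1) := by omega
      simp [ov, app_uu]
  · obtain ⟨i, rfl⟩ : ∃ i, j = i + 1 := ⟨j - 1, by omega⟩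
    obtain ⟨m, rfl⟩ : ∃ m, n = i + 1 + m := ⟨n - (i + 1), by omega⟩
    have hsplit : ∃ rest, pat (i + 1 + m) T = pre (i + 1 + m) T i ++ blk (i + 1 + m) T i ++ rest := by
      refine ⟨((List.range m).map (fun x => i + 1 + x)).flatMap (blk (i + 1 + m) T), ?_⟩
      rw [← pre_succ]
      unfold pat
      simp only [pre]
      rw [List.range_add, List.flatMap_append]
      rfl
    obtain ⟨rest, hrest⟩ := hsplit
    refine amb_of σ (nsub (i + 1 + m) T σ (i + 1) P Q) (pat (i + 1 + m) T)
      (pre (i + 1 + m) T i ++ Sum.inr (T i) :: B1 (i + 1 + m) i) ?_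
      (pre (i + 1 + m) T i ++ Sum.inr (T i) :: V i 0 :: V i 2 :: V i 2 :: uu i) ?_
      0 (T (i + 1)) P Q ?_ ?_ hU ?_ hw
    rotate_left 2
    · rw [hrest, blk]
      simp only [List.append_assoc, List.cons_append]
      rfl
    · rw [hrest, blk, B1, stf]
      simp only [List.append_assoc, List.cons_append]
      rfl
    · have h1 := key i (by omega)
      have e : ¬ (i = i + 1 ∧ i + 1 < i + 1 + m) := by omega
      rw [ov, if_neg e, List.append_nil] at h1
      rw [app_append, app_append, h1]
      simp only [B1, stf, app_inr, app_V, app_append, app_inl, app_nil, nsub_zero, app_hl, app_uu,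
        vl_nsub _ _ _ _ _ _ _ _ (show (0 : ℕ) < 8 by norm_num),
        vl_nsub _ _ _ _ _ _ _ _ (show (1 : ℕ) < 8 by norm_num),
        vl_nsub _ _ _ _ _ _ _ _ (show (2 : ℕ) < 8 by norm_num),
        vl_nsub _ _ _ _ _ _ _ _ (show (4 : ℕ) < 8 by norm_num),
        vl_nsub _ _ _ _ _ _ _ _ (show (5 : ℕ) < 8 by norm_num)]
      have e1 : i ≠ i + 1 := by omega
      have e2 : i < i + 1 := by omega
      simp only [nv, if_neg e1, if_pos e2, lt_irrefl, if_true, if_false]
      split_ifs <;> simp

end Pat

section Rigid

variable {S : Type}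

/-- terminal-free -/
def TF (l : Pattern S) : Prop := ∀ a : S, Sum.inr a ∉ l

theorem split_tf {u1 u2 r1 r2 : Pattern S} {a b : S} (h1 : TF u1) (h2 : TF u2)
    (h : u1 ++ Sum.inr a :: r1 = u2 ++ Sum.inr b :: r2) : u1 = u2 ∧ r1 = r2 := by
  induction u1 generalizing u2 with
  | nil =>
    cases u2 with
    | nil =>
      simp at h
      exact ⟨rfl, h.2⟩
    | cons s u2 =>
      simp only [List.nil_append, List.cons_append, List.cons.injEq] at h
      exact absurd (by rw [← h.1]; simp) (h2 a)
  | cons t u1 ih =>
    cases u2 with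
    | nil =>
      simp only [List.nil_append, List.cons_append, List.cons.injEq] at h
      exact absurd (by rw [h.1]; simp) (h1 b)
    | cons s u2 =>
      simp only [List.cons_append, List.cons.injEq] at h
      obtain ⟨e1, e2⟩ := ih (fun a ha => h1 a (List.mem_cons_of_mem _ ha))
        (fun a ha => h2 a (List.mem_cons_of_mem _ ha)) h.2
      exact ⟨by rw [h.1, e1], e2⟩

theorem first_occ {X : Type} {s : X} {u1 u2 r1 r2 : List X} (h1 : s ∉ u1) (h2 : s ∉ u2)
    (h : u1 ++ s :: r1 = u2 ++ s :: r2) : u1 = u2 ∧ r1 = r2 := by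
  induction u1 generalizing u2 with
  | nil =>
    cases u2 with
    | nil => simpa using h
    | cons t u2 =>
      simp only [List.nil_append, List.cons_append, List.cons.injEq] at h
      exact absurd (by rw [← h.1]; simp) h2
  | cons t u1 ih =>
    cases u2 with
    | nil =>
      simp only [List.nil_append, List.cons_append, List.cons.injEq] at h
      exact absurd (by rw [h.1]; simp) h1
    | cons s' u2 =>
      simp only [List.cons_append, List.cons.injEq] at h
      obtain ⟨e1, e2⟩ := ih (fun ha => h1 (List.mem_cons_of_mem _ ha))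
        (fun ha => h2 (List.mem_cons_of_mem _ ha)) h.2
      exact ⟨by rw [h.1, e1], e2⟩

theorem split_one {X : Type} [DecidableEq X] {s : X} {C : List X} (h : C.count s = 1) :
    ∃ x z, C = x ++ s :: z ∧ s ∉ x ∧ s ∉ z := by
  have hm : s ∈ C := List.count_pos_iff.mp (by omega)
  obtain ⟨x, z, rfl⟩ := List.append_of_mem hm
  rw [List.count_append, List.count_cons_self] at h
  exact ⟨x, z, rfl, List.count_eq_zero.mp (by omega), List.count_eq_zero.mp (by omega)⟩

theorem sq_occ {X : Type} {s : X} {A C R L M : List X} (hA : s ∉ A) (hR : s ∉ R) (hL : s ∉ L)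
    (hM : s ∉ M) (h : A ++ (C ++ (C ++ R)) = L ++ s :: s :: M) : C = [s] ∧ A = L ∧ R = M := by
  classical
  have hc : C.count s = 1 := by
    have := congrArg (List.count s) h
    simp only [List.count_append, List.count_cons_self, List.count_eq_zero.mpr hA,
      List.count_eq_zero.mpr hR, List.count_eq_zero.mpr hL, List.count_eq_zero.mpr hM] at this
    omega
  obtain ⟨x, z, rfl, hx, hz⟩ := split_one hc
  have h' : (A ++ x) ++ s :: ((z ++ x) ++ s :: (z ++ R)) = L ++ s :: ([] ++ s :: M) := by
    simpa using h
  obtain ⟨e1, e2⟩ := first_occ (by simp [hA, hx]) hL h'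
  obtain ⟨e3, e4⟩ := first_occ (by simp [hx, hz]) (by simp) e2
  obtain ⟨rfl, rfl⟩ := List.append_eq_nil_iff.mp e3
  refine ⟨by simp, by simpa using e1, by simpa using e4⟩

theorem two_occ {X : Type} {s : X} {C W R M : List X} (hW : s ∉ W) (hR : s ∉ R)
    (hM : s ∉ M) (h : C ++ (W ++ (C ++ R)) = s :: (W ++ s :: M)) : C = [s] ∧ R = M := by
  classical
  have hc : C.count s = 1 := by
    have := congrArg (List.count s) h
    simp only [List.count_append, List.count_cons_self, List.count_eq_zero.mpr hW,
      List.count_eq_zero.mpr hR, List.count_eq_zero.mpr hM] at this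
    omega
  obtain ⟨x, z, rfl, hx, hz⟩ := split_one hc
  have h' : x ++ s :: ((z ++ (W ++ x)) ++ s :: (z ++ R)) = [] ++ s :: (W ++ s :: M) := by
    simpa using h
  obtain ⟨e1, e2⟩ := first_occ hx (by simp) h'
  subst e1
  obtain ⟨e3, e4⟩ := first_occ (by simp [hW, hz]) hW e2
  have hz0 : z = [] := by
    have := congrArg List.length e3
    simp only [List.length_append, List.length_nil] at this
    exact List.length_eq_zero_iff.mp (by omega)
  subst hz0
  exact ⟨by simp, by simpa using e4⟩

theorem tf_msub {h : ℕ → Pattern S} (hh : ∀ v, TF (h v)) {B : Pattern S} (hB : TF B) :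
    TF (msub h B) := by
  intro a ha
  unfold msub at ha
  obtain ⟨s, hs, hm⟩ := List.mem_flatMap.mp ha
  rcases s with v | b
  · exact hh v a hm
  · exact hB b hs

theorem tf_stf (n i : ℕ) : TF (stf n i : Pattern S) := by
  intro a
  unfold stf uu hl V
  split_ifs <;> simp

theorem tf_B1 (n i : ℕ) : TF (B1 n i : Pattern S) := by
  intro a
  have := tf_stf (S := S) n i a
  simp [B1, V, this]

theorem tf_B2 (n i : ℕ) : TF (B2 n i : Pattern S) := by
  intro a
  have := tf_stf (S := S) n i a
  simp [B2, V, this]

theorem segs (n : ℕ) (T : ℕ → S) (h : ℕ → Pattern S) (hh : ∀ v, TF (h v)) (l : List ℕ) :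
    ∀ x : ℕ, h x ++ msub h (l.flatMap (blk n T)) = [Sum.inl x] ++ l.flatMap (blk n T) →
      h x = [Sum.inl x] ∧ ∀ i ∈ l, msub h (B1 n i) = B1 n i ∧ msub h (B2 n i) = B2 n i ∧
        msub h [V i 6] = [V i 6] ∧ msub h [V (i + 1) 7] = [V (i + 1) 7] := by
  induction l with
  | nil =>
    intro x hx
    simp only [List.flatMap_nil, msub_nil, List.append_nil] at hx
    exact ⟨hx, by simp⟩
  | cons i l ih =>
    intro x hx
    rw [List.flatMap_cons, msub_append] at hx
    simp only [blk, msub_append, msub_inr, List.cons_append, List.append_assoc, V, msub_inl,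
      msub_nil, List.nil_append] at hx
    obtain ⟨e1, hx⟩ := split_tf (u2 := [Sum.inl x]) (hh x) (by intro a; simp) hx
    obtain ⟨e2, hx⟩ := split_tf (tf_msub hh (tf_B1 n i)) (tf_B1 n i) hx
    obtain ⟨e3, hx⟩ := split_tf (u2 := [Sum.inl (8 * i + 6 + 1)]) (hh _) (by intro a; simp) hx
    obtain ⟨e4, hx⟩ := split_tf (tf_msub hh (tf_B2 n i)) (tf_B2 n i) hx
    obtain ⟨e5, e6⟩ := ih (8 * (i + 1) + 7 + 1) (by simpa using hx)
    refine ⟨e1, ?_⟩
    intro i' hi'
    rcases List.mem_cons.mp hi' with rfl | hi'
    · refine ⟨e2, e4, ?_, ?_⟩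
      · simp [V, e3]
      · simp [V, e5]
    · exact e6 i' hi'

theorem V_ne {i c i' c' : ℕ} (hc : c < 8) (hc' : c' < 8) (h : ¬ (i = i' ∧ c = c')) :
    (V i c : ℕ ⊕ S) ≠ V i' c' := by
  intro e
  simp only [V, Sum.inl.injEq] at e
  apply h
  constructor <;> omega

theorem V_notMem_stf (n i i' c : ℕ) (hc : c < 4) : (V i' c : ℕ ⊕ S) ∉ stf n i := by
  unfold stf uu hl V
  split_ifs <;> simp <;> omega

/-- solving one block -/
theorem block_solve (n i : ℕ) (h : ℕ → Pattern S)
    (h1 : msub h (B1 n i) = B1 n i) (h2 : msub h (B2 n i) = B2 n i) :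
    msub h [V i 0] = [V i 0] ∧ msub h [V i 1] = [V i 1] ∧ msub h [V i 2] = [V i 2] ∧
      msub h [V i 3] = [V i 3] ∧ msub h (stf n i) = stf n i := by
  have m0 := V_notMem_stf (S := S) n i i 2 (by norm_num)
  have m1 := V_notMem_stf (S := S) n i i 3 (by norm_num)
  have m2 := V_notMem_stf (S := S) n i i 0 (by norm_num)
  have E1 : msub h [V i 0] ++ (msub h [V i 2] ++ (msub h [V i 2] ++
      (msub h (stf n i) ++ msub h [V i 1]))) = [V i 0] ++ V i 2 :: V i 2 :: (stf n i ++ [V i 1]) := by
    rw [B1] at h1
    simp only [V, msub_inl, msub_append, msub_nil, List.append_nil] at h1 ⊢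
    exact h1
  have E2 : (msub h [V i 0] ++ msub h (stf n i)) ++ (msub h [V i 3] ++ (msub h [V i 3] ++
      msub h [V i 1])) = (V i 0 :: stf n i) ++ V i 3 :: V i 3 :: [V i 1] := by
    rw [B2] at h2
    simp only [V, msub_inl, msub_append, msub_nil, List.append_nil] at h2 ⊢
    simpa using h2
  have n20 : (V i 2 : ℕ ⊕ S) ≠ V i 0 := V_ne (by norm_num) (by norm_num) (by simp)
  have n23 : (V i 2 : ℕ ⊕ S) ≠ V i 3 := V_ne (by norm_num) (by norm_num) (by simp)
  have n21 : (V i 2 : ℕ ⊕ S) ≠ V i 1 := V_ne (by norm_num) (by norm_num) (by simp)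
  have n30 : (V i 3 : ℕ ⊕ S) ≠ V i 0 := V_ne (by norm_num) (by norm_num) (by simp)
  have n32 : (V i 3 : ℕ ⊕ S) ≠ V i 2 := V_ne (by norm_num) (by norm_num) (by simp)
  have n31 : (V i 3 : ℕ ⊕ S) ≠ V i 1 := V_ne (by norm_num) (by norm_num) (by simp)
  have c2 : (V i 2 : ℕ ⊕ S) ∉ (msub h [V i 0] ++ msub h (stf n i)) ++
      (msub h [V i 3] ++ (msub h [V i 3] ++ msub h [V i 1])) := by
    rw [E2]
    simp [n20, n23, n21, m0]
  have c3 : (V i 3 : ℕ ⊕ S) ∉ msub h [V i 0] ++ (msub h [V i 2] ++ (msub h [V i 2] ++
      (msub h (stf n i) ++ msub h [V i 1]))) := by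
    rw [E1]
    simp [n30, n32, n31, m1]
  simp only [List.mem_append, not_or] at c2 c3
  obtain ⟨f1, f2, f3⟩ := sq_occ (s := V i 2) (by tauto) (by simp only [List.mem_append]; tauto)
    (by simp [n20]) (by simp [n21, m0]) E1
  obtain ⟨g1, g2, g3⟩ := sq_occ (s := V i 3) (by simp only [List.mem_append]; tauto) (by tauto)
    (by simp [n30, m1]) (by simp [n31]) E2
  refine ⟨f2, g3, f1, g1, ?_⟩
  rw [f2] at g2
  simpa using g2

theorem V4_notMem_stf (n i i' : ℕ) (hi : i ≠ i') : (V i' 4 : ℕ ⊕ S) ∉ stf n i := by
  unfold stf uu hl V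
  split_ifs <;> simp <;> omega

theorem V4_notMem_hl (n i i' : ℕ) : (V i' 4 : ℕ ⊕ S) ∉ hl n i := by
  unfold hl V
  split_ifs <;> simp <;> omega

/-- solving the chain of the middle parts -/
theorem chain_solve (n : ℕ) (h : ℕ → Pattern S)
    (hs : ∀ i < n, msub h (stf n i) = stf n i) : ∀ i < n,
    h 0 ++ msub h (hl n (i + 1)) = Sum.inl 0 :: hl n (i + 1) ∧
      (i ≠ 0 → msub h [V i 4] = [V i 4]) := by
  intro i
  induction i with
  | zero =>
    intro h0
    have := hs 0 h0
    simp only [stf, uu, if_true, List.nil_append, msub_inl] at this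
    exact ⟨this, by simp⟩
  | succ i ih =>
    intro hi
    obtain ⟨e1, -⟩ := ih (by omega)
    have hne : i + 1 ≠ n := by omega
    have hne0 : i + 1 ≠ 0 := by omega
    have hS := hs (i + 1) hi
    rw [hl, if_neg hne] at e1
    have e1' : h 0 ++ msub h [V (i + 1) 5] = [Sum.inl 0, V (i + 1) 5] := e1
    have E : msub h [V (i + 1) 4] ++ ((h 0 ++ msub h [V (i + 1) 5]) ++ (msub h [V (i + 1) 4] ++
        (h 0 ++ msub h (hl n (i + 1 + 1))))) =
        V (i + 1) 4 :: ([Sum.inl 0, V (i + 1) 5] ++ V (i + 1) 4 ::
          (Sum.inl 0 :: hl n (i + 1 + 1))) := by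
      rw [stf, uu, if_neg hne0] at hS
      simp only [V, msub_inl, msub_append, msub_nil, List.append_nil, List.cons_append,
        List.nil_append] at hS ⊢
      simpa using hS
    rw [e1'] at E
    have hR : (V (i + 1) 4 : ℕ ⊕ S) ∉ h 0 ++ msub h (hl n (i + 1 + 1)) := by
      rw [List.mem_append, not_or]
      constructor
      · intro hm
        have : (V (i + 1) 4 : ℕ ⊕ S) ∈ h 0 ++ msub h [V (i + 1) 5] := List.mem_append_left _ hm
        rw [e1'] at this
        simp [V] at this
      · intro hm
        unfold hl at hm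
        split_ifs at hm with h2
        · simp at hm
        · have h3 := hs (i + 1 + 1) (by omega)
          have h4 : (V (i + 1) 4 : ℕ ⊕ S) ∈ msub h (stf n (i + 1 + 1)) := by
            unfold stf uu
            rw [if_neg (by omega : i + 1 + 1 ≠ 0)]
            simp only [V, msub_inl, msub_append, msub_nil, List.append_nil, List.mem_append] at hm ⊢
            tauto
          rw [h3] at h4
          exact V4_notMem_stf n (i + 1 + 1) (i + 1) (by omega) h4
    obtain ⟨f1, f2⟩ := two_occ (s := V (i + 1) 4) (by simp [V]) hR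
      (by
        rw [List.mem_cons, not_or]
        exact ⟨by simp [V], V4_notMem_hl _ _ _⟩) E
    exact ⟨f2, fun _ => f1⟩

/-- the values of a morphism fixing the pattern -/
theorem rigid (n : ℕ) (hn : 1 ≤ n) (T : ℕ → S) (h : ℕ → Pattern S) (hh : ∀ v, TF (h v))
    (hf : msub h (pat n T) = pat n T) : ∀ v, Sum.inl v ∈ pat n T → h v = [Sum.inl v] := by
  have hf' : h (8 * 0 + 7 + 1) ++ msub h ((List.range n).flatMap (blk n T)) =
      [Sum.inl (8 * 0 + 7 + 1)] ++ (List.range n).flatMap (blk n T) := by
    simpa [pat, pre, V] using hf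
  obtain ⟨h07, hseg⟩ := segs n T h hh (List.range n) _ hf'
  have hseg' : ∀ i < n, _ := fun i hi => hseg i (List.mem_range.mpr hi)
  have hsol : ∀ i < n, _ := fun i hi => block_solve n i h (hseg' i hi).1 (hseg' i hi).2.1
  have hch := chain_solve n h (fun i hi => (hsol i hi).2.2.2.2)
  have h0 : h 0 = [Sum.inl 0] := by
    have := (hch (n - 1) (by omega)).1
    rw [show n - 1 + 1 = n by omega] at this
    simpa [hl] using this
  have h5 : ∀ i < n, i + 1 ≠ n → msub h [V (i + 1) 5] = [V (i + 1) 5] := by
    intro i hi hne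
    have := (hch i hi).1
    rw [h0, hl, if_neg hne] at this
    simpa using this
  have conv : ∀ i c, msub h [V i c] = [V i c] → h (8 * i + c + 1) = [Sum.inl (8 * i + c + 1)] := by
    intro i c e
    simpa [V] using e
  intro v hv
  rw [pat, pre, List.mem_cons] at hv
  rcases hv with hv | hv
  · simp only [V, Sum.inl.injEq] at hv
    rw [hv]
    exact h07
  · obtain ⟨i, hi, hv⟩ := List.mem_flatMap.mp hv
    have hi' := List.mem_range.mp hi
    obtain ⟨s1, s2, s3, s4⟩ := hseg' i hi'
    obtain ⟨t0, t1, t2, t3, t4⟩ := hsol i hi'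
    have hst : Sum.inl v ∈ (stf n i : Pattern S) → h v = [Sum.inl v] := by
      intro hv
      unfold stf uu hl at hv
      by_cases hi0 : i = 0
      · rw [if_pos hi0] at hv
        by_cases hin : i + 1 = n
        · rw [if_pos hin] at hv
          simp at hv
          rw [hv]; exact h0
        · rw [if_neg hin] at hv
          simp only [V, List.nil_append, List.mem_cons, Sum.inl.injEq, List.not_mem_nil,
            or_false] at hv
          rcases hv with rfl | rfl
          · exact h0
          · exact conv _ _ (h5 i hi' hin)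
      · rw [if_neg hi0] at hv
        have h4 := conv _ _ ((hch i hi').2 hi0)
        have h5' : h (8 * i + 5 + 1) = [Sum.inl (8 * i + 5 + 1)] := by
          have := h5 (i - 1) (by omega) (by omega)
          rw [show i - 1 + 1 = i by omega] at this
          exact conv _ _ this
        by_cases hin : i + 1 = n
        · rw [if_pos hin] at hv
          simp only [V, List.cons_append, List.nil_append, List.mem_cons, Sum.inl.injEq,
            List.not_mem_nil, or_false] at hv
          rcases hv with rfl | rfl | rfl | rfl | rfl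
          all_goals first | exact h0 | exact h4 | exact h5'
        · rw [if_neg hin] at hv
          simp only [V, List.cons_append, List.nil_append, List.mem_cons, Sum.inl.injEq,
            List.not_mem_nil, or_false] at hv
          rcases hv with rfl | rfl | rfl | rfl | rfl | rfl
          all_goals first | exact h0 | exact h4 | exact h5' | exact conv _ _ (h5 i hi' hin)
    simp only [blk, B1, B2, List.cons_append, List.append_assoc, List.mem_cons, List.mem_append,
      List.nil_append, List.not_mem_nil, or_false, reduceCtorEq, false_or] at hv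
    have c0 := conv _ _ t0
    have c1 := conv _ _ t1
    have c2 := conv _ _ t2
    have c3 := conv _ _ t3
    have c6 := conv _ _ s3
    have c7 := conv _ _ s4
    simp only [V, Sum.inl.injEq] at hv
    rcases hv with rfl | rfl | rfl | hv | rfl | rfl | rfl | hv | rfl | rfl | rfl | rfl
    all_goals first | exact c0 | exact c1 | exact c2 | exact c3 | exact c6 | exact c7 |
      exact hst hv

theorem count_term (h : ℕ → Pattern S) (α : Pattern S) :
    α.countP Sum.isRight ≤ (msub h α).countP Sum.isRight ∧ ∀ v, Sum.inl v ∈ α →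
      α.countP Sum.isRight + (h v).countP Sum.isRight ≤ (msub h α).countP Sum.isRight := by
  induction α with
  | nil => simp
  | cons s α ih =>
    obtain ⟨ih1, ih2⟩ := ih
    rcases s with w | a
    · rw [msub_inl, List.countP_append, List.countP_cons_of_neg (by simp)]
      refine ⟨by omega, ?_⟩
      intro v hv
      rcases List.mem_cons.mp hv with hv | hv
      · simp only [Sum.inl.injEq] at hv
        subst hv
        omega
      · have := ih2 v hv
        omega
    · rw [msub_inr, List.countP_cons_of_pos (by simp), List.countP_cons_of_pos (by simp)]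
      refine ⟨by omega, ?_⟩
      intro v hv
      have hv' : Sum.inl v ∈ α := by simpa using hv
      have := ih2 v hv'
      omega

theorem msub_congr {h h' : ℕ → Pattern S} {α : Pattern S}
    (e : ∀ v, Sum.inl v ∈ α → h v = h' v) : msub h α = msub h' α := by
  induction α with
  | nil => rfl
  | cons s α ih =>
    have ih' := ih (fun v hv => e v (List.mem_cons_of_mem _ hv))
    rcases s with v | a
    · simp [ih', e v (by simp)]
    · simp [ih']

theorem length_msub (φ : ℕ → Pattern S) (α : Pattern S)
    (h : ∀ v, Sum.inl v ∈ α → φ v ≠ []) : α.length ≤ (msub φ α).length := by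
  induction α with
  | nil => simp
  | cons s α ih =>
    have ih' := ih (fun v hv => h v (List.mem_cons_of_mem _ hv))
    rcases s with v | a
    · have := List.length_pos_of_ne_nil (h v (by simp))
      simp only [msub_inl, List.length_cons, List.length_append]
      omega
    · simp only [msub_inr, List.length_cons]
      omega

theorem primitive (n : ℕ) (hn : 1 ≤ n) (T : ℕ → S) : MorphPrimitive (pat n T) := by
  classical
  rintro ⟨β, φ, ψ, hlen, h1, h2⟩
  subst h1
  rw [msub_msub] at h2
  set h : ℕ → Pattern S := fun v => msub ψ (φ v) with hh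
  have htf : ∀ v, Sum.inl v ∈ pat n T → TF (h v) := by
    intro v hv
    have h3 := (count_term h (pat n T)).2 v hv
    rw [h2] at h3
    have h4 : (h v).countP Sum.isRight = 0 := by omega
    rw [List.countP_eq_zero] at h4
    intro a ha
    simpa using h4 _ ha
  set h' : ℕ → Pattern S := fun v => if TF (h v) then h v else [] with hh'
  have e1 : msub h' (pat n T) = pat n T := by
    refine Eq.trans ?_ h2
    apply msub_congr
    intro v hv
    simp [hh', htf v hv]
  have e2 : ∀ v, TF (h' v) := by
    intro v
    simp only [hh']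
    split_ifs with h5
    · exact h5
    · intro a; simp
  have e3 := rigid n hn T h' e2 e1
  have e4 : ∀ v, Sum.inl v ∈ pat n T → φ v ≠ [] := by
    intro v hv h6
    have h7 := e3 v hv
    have h8 : h v = [] := by simp [hh, h6]
    simp [hh', h8] at h7
  have := length_msub φ (pat n T) e4
  omega

end Rigid

/-- For every finite alphabet with at least two letters there is a morphically primitive pattern,
containing a terminal, with respect to which every nonerasing substitution, and in particular every
injective substitution, is terminal-comprisingly ambiguous. -/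
theorem result : ∀ (S : Type) [Fintype S], 2 ≤ Fintype.card S →
    ∃ α : Pattern S, MorphPrimitive α ∧ (∃ a : S, Sum.inr a ∈ α) ∧
      (∀ σ : ℕ → List S, (∀ x, σ x ≠ []) → TCAmbiguous σ α) ∧
      (∀ σ : ℕ → List S, InjectiveSub σ → TCAmbiguous σ α) := by
  intro S _ hS
  obtain ⟨n, hn⟩ : ∃ n, Fintype.card S = n + 1 := ⟨Fintype.card S - 1, by omega⟩
  have hn1 : 1 ≤ n := by omega
  let e : S ≃ Fin (n + 1) := (Fintype.equivFin S).trans (finCongr hn)
  let T : ℕ → S := fun j => e.symm (Fin.ofNat (n + 1) j)
  have hT : ∀ c : S, ∃ j ≤ n, T j = c := by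
    intro c
    refine ⟨(e c).val, by have := (e c).isLt; omega, ?_⟩
    simp only [T]
    rw [show Fin.ofNat (n + 1) (e c).val = e c from by
      apply Fin.ext; simp [Fin.ofNat, Nat.mod_eq_of_lt (e c).isLt]]
    simp
  have key : ∀ σ : ℕ → List S, σ 0 ≠ [] → TCAmbiguous σ (pat n T) := by
    intro σ h0
    obtain ⟨c, hc⟩ := List.exists_mem_of_ne_nil _ h0
    obtain ⟨j, hj, rfl⟩ := hT c
    exact amb_pat n T σ j hj hn1 hc
  refine ⟨pat n T, primitive n hn1 T, ⟨T 0, ?_⟩, fun σ h => key σ (h 0), fun σ h => key σ ?_⟩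
  · obtain ⟨m, rfl⟩ : ∃ m, n = m + 1 := ⟨n - 1, by omega⟩
    simp [pat, pre, List.range_succ_eq_map, blk]
  · intro h0
    have := h [0] [0, 0] (by simp) (by simp) (by simp [h0])
    simp at this

end Pool.Agent.Results.MP_00321d_lc.NotAvoidable
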